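import Pool.Agent.Helper51.AJ.St
import Pool.Agent.Helper51.AJ.Basic

/-!
# Project AJ (MP_d63854_co), module ASB: `G = 2K₁ ∨ B`
-/

set_option autoImplicit false

namespace Pool.Agent.Helper90.AJ

open Pool.Agent.Helper51.AJ

variable {V : Type}

/-- the vertices different from `a₁`, `a₂` -/
private abbrev Rs (a₁ a₂ : V) : Set V := {b : V | b ≠ a₁ ∧ b ≠ a₂}

private theorem exIso (G : SimpleGraph V) (a₁ a₂ : V) (hne : a₁ ≠ a₂) (hna : ¬ G.Adj a₁ a₂)
    (hall : ∀ b, b ≠ a₁ → b ≠ a₂ → G.Adj a₁ b ∧ G.Adj a₂ b) :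
    Nonempty (jn (⊥ : SimpleGraph (Fin 2)) (G.induce (Rs a₁ a₂)) ≃g G) := by
  classical
  let f : Fin 2 ⊕ (Rs a₁ a₂) → V := Sum.elim ![a₁, a₂] (fun x => x.1)
  have hf0 : f (Sum.inl 0) = a₁ := rfl
  have hf1 : f (Sum.inl 1) = a₂ := rfl
  have hfr : ∀ x, f (Sum.inr x) = x.1 := fun _ => rfl
  have hbij : Function.Bijective f := by
    constructor
    · rintro (x | x) (y | y) hxy
      · fin_cases x <;> fin_cases y
        · rfl
        · exact absurd hxy hne
        · exact absurd hxy.symm hne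
        · rfl
      · fin_cases x
        · exact absurd hxy.symm y.2.1
        · exact absurd hxy.symm y.2.2
      · fin_cases y
        · exact absurd hxy x.2.1
        · exact absurd hxy x.2.2
      · exact congrArg Sum.inr (Subtype.ext hxy)
    · intro v
      by_cases h1 : v = a₁
      · exact ⟨Sum.inl 0, h1.symm⟩
      · by_cases h2 : v = a₂
        · exact ⟨Sum.inl 1, h2.symm⟩
        · exact ⟨Sum.inr ⟨v, h1, h2⟩, rfl⟩
  refine ⟨⟨Equiv.ofBijective f hbij, ?_⟩⟩
  rintro (x | x) (y | y)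
  · constructor
    · intro h
      exfalso
      fin_cases x <;> fin_cases y
      · exact G.irrefl h
      · exact hna h
      · exact hna h.symm
      · exact G.irrefl h
    · intro h
      exact absurd h (by simp [jn])
  · constructor
    · intro _
      trivial
    · intro _
      fin_cases x
      · exact (hall y.1 y.2.1 y.2.2).1
      · exact (hall y.1 y.2.1 y.2.2).2
  · constructor
    · intro _
      trivial
    · intro _
      fin_cases y
      · exact (hall x.1 x.2.1 x.2.2).1.symm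
      · exact (hall x.1 x.2.1 x.2.2).2.symm
  · exact Iff.rfl

private theorem minA (G : SimpleGraph V) (a₁ a₂ : V) :
    IsMinor (G.induce ({a₁}ᶜ : Set V)) (jn (⊤ : SimpleGraph (Fin 1)) (G.induce (Rs a₁ a₂))) := by
  classical
  let f : ({a₁}ᶜ : Set V) → Fin 1 ⊕ (Rs a₁ a₂) := fun x =>
    if h : x.1 = a₂ then Sum.inl 0 else Sum.inr ⟨x.1, x.2, h⟩
  refine isMinor_of_hom f ?_ ?_
  · intro x y hxy
    simp only [f] at hxy
    by_cases hx : x.1 = a₂ <;> by_cases hy : y.1 = a₂
    · exact Subtype.ext (hx.trans hy.symm)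
    · simp [hx, hy] at hxy
    · simp [hx, hy] at hxy
    · simp only [hx, hy, dif_neg, not_false_eq_true, Sum.inr.injEq, Subtype.mk.injEq] at hxy
      exact Subtype.ext hxy
  · intro x y hxy
    have hxy' : G.Adj x.1 y.1 := hxy
    simp only [f]
    by_cases hx : x.1 = a₂ <;> by_cases hy : y.1 = a₂
    · exact absurd (hx.trans hy.symm) (G.ne_of_adj hxy')
    · rw [dif_pos hx, dif_neg hy]
      trivial
    · rw [dif_neg hx, dif_pos hy]
      trivial
    · rw [dif_neg hx, dif_neg hy]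
      exact hxy'

private theorem minB (G : SimpleGraph V) (a₁ a₂ : V) (hna : ¬ G.Adj a₁ a₂) (w : Rs a₁ a₂) :
    IsMinor (G.induce ({w.1}ᶜ : Set V))
      (jn (⊥ : SimpleGraph (Fin 2)) ((G.induce (Rs a₁ a₂)).induce ({w}ᶜ : Set (Rs a₁ a₂)))) := by
  classical
  let f : ({w.1}ᶜ : Set V) → Fin 2 ⊕ ({w}ᶜ : Set (Rs a₁ a₂)) := fun x =>
    if h : x.1 = a₁ then Sum.inl 0 else if h' : x.1 = a₂ then Sum.inl 1 else
      Sum.inr ⟨⟨x.1, h, h'⟩, fun he => x.2 (congrArg Subtype.val he)⟩
  refine isMinor_of_hom f ?_ ?_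
  · intro x y hxy
    simp only [f] at hxy
    by_cases hx : x.1 = a₁
    · by_cases hy : y.1 = a₁
      · exact Subtype.ext (hx.trans hy.symm)
      · rw [dif_pos hx, dif_neg hy] at hxy
        by_cases hy2 : y.1 = a₂
        · rw [dif_pos hy2] at hxy
          exact absurd (Sum.inl.inj hxy) (by decide)
        · rw [dif_neg hy2] at hxy
          exact absurd hxy (by simp)
    · rw [dif_neg hx] at hxy
      by_cases hx2 : x.1 = a₂
      · rw [dif_pos hx2] at hxy
        by_cases hy : y.1 = a₁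
        · rw [dif_pos hy] at hxy
          exact absurd (Sum.inl.inj hxy) (by decide)
        · rw [dif_neg hy] at hxy
          by_cases hy2 : y.1 = a₂
          · exact Subtype.ext (hx2.trans hy2.symm)
          · rw [dif_neg hy2] at hxy
            exact absurd hxy (by simp)
      · rw [dif_neg hx2] at hxy
        by_cases hy : y.1 = a₁
        · rw [dif_pos hy] at hxy
          exact absurd hxy (by simp)
        · rw [dif_neg hy] at hxy
          by_cases hy2 : y.1 = a₂
          · rw [dif_pos hy2] at hxy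
            exact absurd hxy (by simp)
          · rw [dif_neg hy2] at hxy
            have h1 := Sum.inr.inj hxy
            have h2 := congrArg (fun z : ({w}ᶜ : Set (Rs a₁ a₂)) => (z.1.1 : V)) h1
            exact Subtype.ext h2
  · intro x y hxy
    have hxy' : G.Adj x.1 y.1 := hxy
    simp only [f]
    by_cases hx : x.1 = a₁
    · by_cases hy : y.1 = a₁
      · exact absurd (hx.trans hy.symm) (G.ne_of_adj hxy')
      · rw [dif_pos hx, dif_neg hy]
        by_cases hy2 : y.1 = a₂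
        · exact absurd (by rw [hx, hy2] at hxy'; exact hxy') hna
        · rw [dif_neg hy2]
          trivial
    · rw [dif_neg hx]
      by_cases hx2 : x.1 = a₂
      · rw [dif_pos hx2]
        by_cases hy : y.1 = a₁
        · exact absurd (by rw [hx2, hy] at hxy'; exact hxy'.symm) hna
        · rw [dif_neg hy]
          by_cases hy2 : y.1 = a₂
          · exact absurd (hx2.trans hy2.symm) (G.ne_of_adj hxy')
          · rw [dif_neg hy2]
            trivial
      · rw [dif_neg hx2]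
        by_cases hy : y.1 = a₁
        · rw [dif_pos hy]
          trivial
        · rw [dif_neg hy]
          by_cases hy2 : y.1 = a₂
          · rw [dif_pos hy2]
            trivial
          · rw [dif_neg hy2]
            exact hxy'

/-- module ASB -/
theorem hASB (h1 : StTrn) (h2 : StJnm) (h3 : StPla) (h4 : StPlb) (h5 : StMth) (h6 : StFna) (_h7 : StAsa) :
    StAsb := by
  classical
  intro V _ G a₁ a₂ hex hne hna hall
  obtain ⟨e⟩ := exIso G a₁ a₂ hne hna hall
  obtain ⟨hG, hmin⟩ := hex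
  obtain ⟨⟨m1, m2, m3, m4⟩, ⟨n1, n2, _, n4⟩, ⟨Y5, y51, y52, y53⟩, ⟨Y6, y61, y62, y63⟩⟩ := h6
  have lift : ∀ (U : Type) (X : SimpleGraph U), IsMinor X (G.induce (Rs a₁ a₂)) →
      IsMinor (jn (⊥ : SimpleGraph (Fin 2)) X) G := by
    intro U X hX
    have h := h2.1 (Fin 2) (Fin 2) U _ ⊥ ⊥ X (G.induce (Rs a₁ a₂)) (isMinor_refl _) hX
    exact h1.1 _ _ _ _ _ _ h (isMinor_of_iso e)
  by_cases c1 : IsMinor X1 (G.induce (Rs a₁ a₂))
  · left
    by_contra hcon
    exact n1 (hmin _ E1 (h1.1 _ _ _ _ _ _ m1 (lift _ _ c1)) hcon)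
  by_cases c2 : IsMinor X2 (G.induce (Rs a₁ a₂))
  · right; left
    by_contra hcon
    exact n2 (hmin _ E2 (h1.1 _ _ _ _ _ _ m2 (lift _ _ c2)) hcon)
  by_cases c3 : IsMinor X3 (G.induce (Rs a₁ a₂))
  · right; left
    by_contra hcon
    exact n2 (hmin _ E2 (h1.1 _ _ _ _ _ _ m3 (lift _ _ c3)) hcon)
  by_cases c4 : IsMinor X4 (G.induce (Rs a₁ a₂))
  · right; right
    by_contra hcon
    exact n4 (hmin _ E4 (h1.1 _ _ _ _ _ _ m4 (lift _ _ c4)) hcon)
  by_cases c5 : IsMinor X5 (G.induce (Rs a₁ a₂))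
  · exfalso
    have hl := lift _ _ c5
    have e1 : Nonempty (Y5 ≃g G) := by
      by_contra hcon
      exact y52 (hmin _ Y5 (h1.1 _ _ _ _ _ _ y51 hl) hcon)
    have e2 : Nonempty (jn (⊥ : SimpleGraph (Fin 2)) X5 ≃g G) := by
      by_contra hcon
      exact y52 (h2.2.1 _ _ _ _ y51 (hmin _ _ hl hcon))
    obtain ⟨e1⟩ := e1
    obtain ⟨e2⟩ := e2
    exact y53 ⟨e1.trans e2.symm⟩
  by_cases c6 : IsMinor X6 (G.induce (Rs a₁ a₂))
  · exfalso
    have hl := lift _ _ c6
    have e1 : Nonempty (Y6 ≃g G) := by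
      by_contra hcon
      exact y62 (hmin _ Y6 (h1.1 _ _ _ _ _ _ y61 hl) hcon)
    have e2 : Nonempty (jn (⊥ : SimpleGraph (Fin 2)) X6 ≃g G) := by
      by_contra hcon
      exact y62 (h2.2.1 _ _ _ _ y61 (hmin _ _ hl hcon))
    obtain ⟨e1⟩ := e1
    obtain ⟨e2⟩ := e2
    exact y63 ⟨e1.trans e2.symm⟩
  exfalso
  by_cases c7 : IsMinor K4 (G.induce (Rs a₁ a₂)) ∨ IsMinor K23 (G.induce (Rs a₁ a₂))
  · obtain ⟨w, hw⟩ := h5 _ _ c7 c1 c2 c3 c4 c5 c6
    refine hG (Or.inr ⟨w.1, ?_⟩)
    exact h2.2.2 _ _ _ _ (minB G a₁ a₂ hna w) ((h4 _ _).1 hw)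
  · push Not at c7
    refine hG (Or.inr ⟨a₁, ?_⟩)
    exact h2.2.2 _ _ _ _ (minA G a₁ a₂) (h3 _ _ c7.1 c7.2)

end Pool.Agent.Helper90.AJ
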