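import Pool.Agent.Helper51.AJ.St
import Pool.Agent.Helper51.AJ.Basic

/-!
# Project AJ (MP_d63854_co), module EDG: no edges between `W 1` and `W 2`
-/

set_option autoImplicit false

namespace Pool.Agent.Helper90.AJ

open Pool.Agent.Helper51.AJ

variable {V : Type}

/-- the degree in an induced subgraph, computed in the graph -/
private theorem ncard_nb [Finite V] (B : SimpleGraph V) (s : Set V) (z : s) (T : Set V)
    (hT : ∀ t ∈ s, B.Adj z.1 t → t ∈ T) : ((B.induce s).neighborSet z).ncard ≤ T.ncard := by
  have h : (Subtype.val '' ((B.induce s).neighborSet z)) ⊆ T := by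
    rintro _ ⟨t, ht, rfl⟩
    exact hT t.1 t.2 ht
  rw [← Set.ncard_image_of_injective _ Subtype.val_injective]
  exact Set.ncard_le_ncard h (Set.toFinite _)

private theorem ncard_two (x y : V) : ({x, y} : Set V).ncard ≤ 2 :=
  (Set.ncard_insert_le x {y}).trans (by rw [Set.ncard_singleton])

/-- module EDG -/
theorem hEDG (_h1 : StCon) (h2 : StAtt) : StEdg := by
  intro V _ B u v w W hNF hw huv h12
  have hcov : ({w}ᶜ : Set V) = (({u} ∪ W 1) ∪ {v}) ∪ W 2 := by
    ext z
    constructor
    · intro hz
      rcases hNF.cov z with h | h | ⟨i, h⟩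
      · exact Or.inl (Or.inl (Or.inl h))
      · exact Or.inl (Or.inr h)
      · fin_cases i
        · have h' : z ∈ W 0 := h
          rw [hw] at h'
          exact absurd h' hz
        · exact Or.inl (Or.inl (Or.inr h))
        · exact Or.inr h
    · intro hz hzw
      have hz0 : z ∈ W 0 := by
        rw [hw]
        exact hzw
      rcases hz with ((h | h) | h) | h
      · rw [Set.mem_singleton_iff.1 h] at hz0
        exact hNF.nu 0 hz0
      · exact Set.disjoint_left.1 (hNF.dis 0 1 (by decide)) hz0 h
      · rw [Set.mem_singleton_iff.1 h] at hz0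
        exact hNF.nv 0 hz0
      · exact Set.disjoint_left.1 (hNF.dis 0 2 (by decide)) hz0 h
  have hcon : Con B ((({u} ∪ W 1) ∪ {v}) ∪ W 2) := by
    have c1 : Con B ({u} ∪ W 1) := con_union (con_singleton B u) (hNF.con 1) (hNF.au 1)
    have c2 : Con B (({u} ∪ W 1) ∪ {v}) :=
      con_union c1 (con_singleton B v)
        (tch_symm (tch_mono (hNF.av 1) (subset_refl _) Set.subset_union_right))
    exact con_union c2 (hNF.con 2) (tch_mono (hNF.av 2) Set.subset_union_right (subset_refl _))
  refine ⟨?_, ?_⟩
  · rw [← hcov] at hcon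
    exact hcon
  · intro z
    have hz : z.1 ∈ (({u} ∪ W 1) ∪ {v}) ∪ W 2 := by
      rw [← hcov]
      exact z.2
    obtain ⟨x1, hx1, y1, hy1, hux1, hvy1, -, hd1⟩ := h2 V B u v W hNF 1
    obtain ⟨x2, hx2, y2, hy2, hux2, hvy2, -, hd2⟩ := h2 V B u v W hNF 2
    rcases hz with ((h | h) | h) | h
    · have hzu : z.1 = u := h
      refine (ncard_nb B _ z {x1, x2} ?_).trans (ncard_two x1 x2)
      intro t ht hadj
      rw [hzu] at hadj
      rw [hcov] at ht
      rcases ht with ((g | g) | g) | g
      · exact absurd hadj (by rw [Set.mem_singleton_iff.1 g]; exact B.irrefl)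
      · exact Or.inl ((hux1 t g).1 hadj)
      · exact absurd hadj (by rw [Set.mem_singleton_iff.1 g]; exact huv)
      · exact Or.inr ((hux2 t g).1 hadj)
    · refine (ncard_nb B _ z _ ?_).trans (hd1 z.1 h)
      intro t ht hadj
      rw [hcov] at ht
      rcases ht with ((g | g) | g) | g
      · exact ⟨hadj, Or.inr (Or.inl g)⟩
      · exact ⟨hadj, Or.inl g⟩
      · exact ⟨hadj, Or.inr (Or.inr g)⟩
      · exact absurd hadj (h12 _ h _ g)
    · have hzv : z.1 = v := h
      refine (ncard_nb B _ z {y1, y2} ?_).trans (ncard_two y1 y2)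
      intro t ht hadj
      rw [hzv] at hadj
      rw [hcov] at ht
      rcases ht with ((g | g) | g) | g
      · exact absurd hadj (by rw [Set.mem_singleton_iff.1 g]; exact fun h' => huv h'.symm)
      · exact Or.inl ((hvy1 t g).1 hadj)
      · exact absurd hadj (by rw [Set.mem_singleton_iff.1 g]; exact B.irrefl)
      · exact Or.inr ((hvy2 t g).1 hadj)
    · refine (ncard_nb B _ z _ ?_).trans (hd2 z.1 h)
      intro t ht hadj
      rw [hcov] at ht
      rcases ht with ((g | g) | g) | g
      · exact ⟨hadj, Or.inr (Or.inl g)⟩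
      · exact absurd hadj.symm (h12 _ g _ h)
      · exact ⟨hadj, Or.inr (Or.inr g)⟩
      · exact ⟨hadj, Or.inl g⟩

end Pool.Agent.Helper90.AJ
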